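import Pool.Agent.H380Z.NV.Final

set_option autoImplicit false

namespace Pool.Agent.Results.MP_2bac73_pr.AWindowBounded

open Pool.Agent.H380Z.NV

/-- The cutoff window of the `q`-state noisy voter model from an arbitrary initial state is
bounded by a constant that depends only on `q`, `θ`, `ε` and a bound `D` on the degrees. -/
theorem result (q : ℕ) (hq : 2 ≤ q) (θ : ℝ) (h0 : 0 < θ) (h1 : θ < 1) (D : ℕ)
    (ε : ℝ) (e0 : 0 < ε) (e1 : ε < 1) :
    ∃ C : ℝ, ∀ (V : Type) [Fintype V] [DecidableEq V] (G : SimpleGraph V) [DecidableRel G.Adj],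
      G.Connected → 2 ≤ Fintype.card V → (∀ v, G.degree v ≤ D) →
      ∀ μ : (V → Fin q) → ℝ, IsStationary G q θ μ → ∀ x : V → Fin q,
        |tmix G q θ μ x ε - tmix G q θ μ x (1 - ε)| ≤ C := by
  obtain ⟨C, hC⟩ := window_unif q hq h0 h1 (D := (D : ℝ)) (Nat.cast_nonneg D) e0 e1
    (ε₂ := 1 - ε) (by linarith) (by linarith)
  exact ⟨C, fun V _ _ G _ hc h2 hd μ hμ x =>
    hC V G hc h2 (fun v => by exact_mod_cast hd v) μ hμ x⟩

end Pool.Agent.Results.MP_2bac73_pr.AWindowBounded
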